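import Pool.Agent.helper14.F3.Defs

/-!
# D3: the determinant identity
-/

open Set Metric MeasureTheory
open scoped ContDiff Topology

namespace Kusner.Def3

theorem dt_coord (T : E3 →L[ℝ] E3) : dt T =
    P.ent T 0 0 * P.ent T 1 1 * P.ent T 2 2 - P.ent T 0 0 * P.ent T 1 2 * P.ent T 2 1 -
      P.ent T 0 1 * P.ent T 1 0 * P.ent T 2 2 + P.ent T 0 1 * P.ent T 1 2 * P.ent T 2 0 +
      P.ent T 0 2 * P.ent T 1 0 * P.ent T 2 1 - P.ent T 0 2 * P.ent T 1 1 * P.ent T 2 0 := by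
  have h := LinearMap.det_toMatrix (EuclideanSpace.basisFun (Fin 3) ℝ).toBasis T.toLinearMap
  show LinearMap.det T.toLinearMap = _
  rw [← h, Matrix.det_fin_three]
  have e : ∀ i j, LinearMap.toMatrix (EuclideanSpace.basisFun (Fin 3) ℝ).toBasis
      (EuclideanSpace.basisFun (Fin 3) ℝ).toBasis T.toLinearMap i j = P.ent T i j := by
    intro i j
    rw [LinearMap.toMatrix_apply]
    simp [P.ent]
  simp only [e]

theorem tr_coord (T : E3 →L[ℝ] E3) : tr T = P.ent T 0 0 + P.ent T 1 1 + P.ent T 2 2 :=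
  P.trL_coord T

theorem ent_add (S T : E3 →L[ℝ] E3) (i j : Fin 3) : P.ent (S + T) i j = P.ent S i j + P.ent T i j :=
  rfl

theorem ent_smul (c : ℝ) (T : E3 →L[ℝ] E3) (i j : Fin 3) : P.ent (c • T) i j = c * P.ent T i j :=
  rfl

theorem ent_one (i j : Fin 3) : P.ent (1 : E3 →L[ℝ] E3) i j = if i = j then 1 else 0 := by
  simp [P.ent, eq_comm, Pi.single_apply]

theorem dt_one_add (M : E3 →L[ℝ] E3) :
    dt (1 + M) = 1 + tr M + 1 / 2 * (tr M ^ 2 - tr (M.comp M)) + dt M := by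
  rw [dt_coord, dt_coord, tr_coord, tr_coord]
  simp only [ent_add, ent_one, P.ent_comp]
  simp [Fin.sum_univ_three]
  ring

theorem dt_smul (c : ℝ) (T : E3 →L[ℝ] E3) : dt (c • T) = c ^ 3 * dt T := by
  rw [dt_coord, dt_coord]
  simp only [ent_smul]
  ring

theorem tr_add (S T : E3 →L[ℝ] E3) : tr (S + T) = tr S + tr T := map_add P.trL S T

theorem tr_smul (c : ℝ) (T : E3 →L[ℝ] E3) : tr (c • T) = c * tr T := map_smul P.trL c T

theorem det_eq {k : ℕ} (θ : ℝ) (σ : Fin k → ℝ) (A B : E3 →L[ℝ] E3) (C : Fin k → E3 →L[ℝ] E3)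
    (hA : tr A = 0) (hB : tr B = tr (A.comp A)) :
    dt (1 + θ • Nf θ σ A B C) = 1 + θ ^ 3 * Rf θ σ A B C := by
  have hN : tr (Nf θ σ A B C) = θ / 2 * tr B + θ ^ 2 * tr (Kf σ C) := by
    rw [Nf, tr_add, tr_add, tr_smul, tr_smul, hA]
    ring
  have hNN : tr ((Nf θ σ A B C).comp (Nf θ σ A B C)) = tr (A.comp A) + θ * tr (A.comp B) +
      θ ^ 2 * (1 / 4 * tr (B.comp B) + 2 * tr (A.comp (Kf σ C))) +
      θ ^ 3 * tr (B.comp (Kf σ C)) + θ ^ 4 * tr ((Kf σ C).comp (Kf σ C)) := by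
    have h1 : tr (B.comp A) = tr (A.comp B) := P.trL_comm B A
    have h2 : tr ((Kf σ C).comp A) = tr (A.comp (Kf σ C)) := P.trL_comm _ _
    have h3 : tr ((Kf σ C).comp B) = tr (B.comp (Kf σ C)) := P.trL_comm _ _
    have e : (Nf θ σ A B C).comp (Nf θ σ A B C) = A.comp A + (θ / 2) • A.comp B +
        θ ^ 2 • A.comp (Kf σ C) + ((θ / 2) • B.comp A + (θ / 2 * (θ / 2)) • B.comp B +
        (θ / 2 * θ ^ 2) • B.comp (Kf σ C)) + (θ ^ 2 • (Kf σ C).comp A +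
        (θ ^ 2 * (θ / 2)) • (Kf σ C).comp B + (θ ^ 2 * θ ^ 2) • (Kf σ C).comp (Kf σ C)) := by
      rw [Nf]
      ext v : 1
      simp only [ContinuousLinearMap.comp_apply, add_apply, smul_apply, map_add, map_smul]
      module
    rw [e]
    simp only [tr_add, tr_smul, h1, h2, h3]
    ring
  have hc : (θ • Nf θ σ A B C).comp (θ • Nf θ σ A B C) =
      (θ * θ) • (Nf θ σ A B C).comp (Nf θ σ A B C) := by
    ext v : 1
    simp only [ContinuousLinearMap.comp_apply, smul_apply, map_smul, smul_smul]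
  rw [dt_one_add, dt_smul, tr_smul, hc, tr_smul, hNN, hN, Rf, ← hB]
  ring

theorem tr_Kf {k : ℕ} (σ : Fin k → ℝ) (C : Fin k → E3 →L[ℝ] E3) :
    tr (Kf σ C) = ∑ j, σ j * tr (C j) := by
  have h : tr (Kf σ C) = P.trL (∑ j, σ j • C j) := rfl
  rw [h, map_sum]
  refine Finset.sum_congr rfl fun j _ => ?_
  rw [map_smul]
  rfl

theorem Rf_zero {k : ℕ} (σ : Fin k → ℝ) (A B : E3 →L[ℝ] E3) (C : Fin k → E3 →L[ℝ] E3) :
    Rf 0 σ A B C = ∑ j, σ j * tr (C j) + (dt A - 1 / 2 * tr (A.comp B)) := by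
  have hN : Nf 0 σ A B C = A := by
    rw [Nf]
    ext v : 1
    simp
  rw [Rf, hN, tr_Kf]
  ring

end Kusner.Def3
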