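import Pool.Agent.helper14.Kus3.TraceAcc
import Pool.Agent.helper28.Kus3.F2a

/-!
# Volume preserving deformations: definitions

`Dφ = 1 + θ N`, `N = A + (θ/2) B + θ² K`, `K = Σ σ_j C_j`; if `tr A = 0` and `tr B = tr A²` then
`det (1 + θ N) = 1 + θ³ Rf`.
-/

open Set Metric MeasureTheory
open scoped ContDiff Topology

namespace Kusner.Def3

/-- trace -/
noncomputable abbrev tr (T : E3 →L[ℝ] E3) : ℝ := LinearMap.trace ℝ E3 T.toLinearMap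

/-- determinant -/
noncomputable abbrev dt (T : E3 →L[ℝ] E3) : ℝ := LinearMap.det T.toLinearMap

/-- `K = Σ σ_j C_j` -/
noncomputable def Kf {k : ℕ} (σ : Fin k → ℝ) (C : Fin k → E3 →L[ℝ] E3) : E3 →L[ℝ] E3 :=
  ∑ j, σ j • C j

/-- `N = A + (θ/2) B + θ² K` -/
noncomputable def Nf {k : ℕ} (θ : ℝ) (σ : Fin k → ℝ) (A B : E3 →L[ℝ] E3)
    (C : Fin k → E3 →L[ℝ] E3) : E3 →L[ℝ] E3 :=
  A + (θ / 2) • B + θ ^ 2 • Kf σ C

/-- The remainder. -/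
noncomputable def Rf {k : ℕ} (θ : ℝ) (σ : Fin k → ℝ) (A B : E3 →L[ℝ] E3)
    (C : Fin k → E3 →L[ℝ] E3) : ℝ :=
  tr (Kf σ C) +
    1 / 2 * (θ * (1 / 2 * tr B + θ * tr (Kf σ C)) ^ 2 - tr (A.comp B) -
      θ * (1 / 4 * tr (B.comp B) + 2 * tr (A.comp (Kf σ C))) - θ ^ 2 * tr (B.comp (Kf σ C)) -
      θ ^ 3 * tr ((Kf σ C).comp (Kf σ C))) + dt (Nf θ σ A B C)

end Kusner.Def3
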