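import Pool.Agent.helper14.F3.Defs

/-!
# Volume preserving deformations: interface (all sorried, never import in a hand-in)
-/

open Set Metric MeasureTheory
open scoped ContDiff Topology

namespace Kusner.Def3

/-- D1 -/
theorem isDef_of_coef {ι : Type*} [Fintype ι] (V : ι → E3 → E3)
    (hV : ∀ i, ContDiff ℝ ∞ (V i)) (hVc : ∀ i, HasCompactSupport (V i)) :
    ∃ η : ℝ, 0 < η ∧ ∀ c : ι → ℝ → ℝ, (∀ i, ContDiff ℝ ∞ (c i)) → (∀ i, c i 0 = 0) →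
      (∀ i t, |c i t| ≤ η) → (∀ i t t', |c i t - c i t'| ≤ η * |t - t'|) →
      IsDeformation (fun t x => x + ∑ i, c i t • V i x) ∧
        ∀ t x, 0 < dt (fderiv ℝ (fun x => x + ∑ i, c i t • V i x) x) := sorry

/-- D2 -/
theorem exists_fields {k : ℕ} (Ω : Fin k → Set E3) (ho : ∀ i, IsOpen (Ω i))
    (hb : ∀ i, Bornology.IsBounded (Ω i)) (hne : ∀ i, (Ω i).Nonempty)
    (hd : Pairwise fun i j => Disjoint (Ω i) (Ω j)) :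
    ∃ (Y : Fin k → E3 → E3) (c : Fin k → ℝ), (∀ j, ContDiff ℝ ∞ (Y j)) ∧
      (∀ j, HasCompactSupport (Y j)) ∧ (∀ j, 0 < c j) ∧
      ∀ i j, ∫ x in Ω i, tr (fderiv ℝ (Y j) x) = if i = j then c j else 0 := sorry

/-- D3 -/
theorem det_eq {k : ℕ} (θ : ℝ) (σ : Fin k → ℝ) (A B : E3 →L[ℝ] E3) (C : Fin k → E3 →L[ℝ] E3)
    (hA : tr A = 0) (hB : tr B = tr (A.comp A)) :
    dt (1 + θ • Nf θ σ A B C) = 1 + θ ^ 3 * Rf θ σ A B C := sorry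

theorem Rf_zero {k : ℕ} (σ : Fin k → ℝ) (A B : E3 →L[ℝ] E3) (C : Fin k → E3 →L[ℝ] E3) :
    Rf 0 σ A B C = ∑ j, σ j * tr (C j) + (dt A - 1 / 2 * tr (A.comp B)) := sorry

/-- D4 -/
theorem contDiff_int {k : ℕ} {Ω : Set E3} (hb : Bornology.IsBounded Ω) (hm : MeasurableSet Ω)
    {A B : E3 → E3 →L[ℝ] E3} {C : Fin k → E3 → E3 →L[ℝ] E3} (hA : ContDiff ℝ ∞ A)
    (hB : ContDiff ℝ ∞ B) (hC : ∀ j, ContDiff ℝ ∞ (C j)) :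
    ContDiff ℝ ∞ (fun q : ℝ × (Fin k → ℝ) =>
      ∫ x in Ω, Rf q.1 q.2 (A x) (B x) (fun j => C j x)) := sorry

theorem continuous_Rf {k : ℕ} (θ : ℝ) (σ : Fin k → ℝ) {A B : E3 → E3 →L[ℝ] E3}
    {C : Fin k → E3 → E3 →L[ℝ] E3} (hA : Continuous A) (hB : Continuous B)
    (hC : ∀ j, Continuous (C j)) :
    Continuous (fun x => Rf θ σ (A x) (B x) (fun j => C j x)) := sorry

/-- D5 -/
theorem implicit_curve {k : ℕ} {F : ℝ × (Fin k → ℝ) → Fin k → ℝ} (hF : ContDiff ℝ ∞ F)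
    {c d : Fin k → ℝ} (hc : ∀ i, 0 < c i) (h0 : ∀ σ i, F (0, σ) i = c i * σ i + d i) :
    ∃ (δ : ℝ) (σ : ℝ → Fin k → ℝ), 0 < δ ∧ ContDiffOn ℝ ∞ σ (Ioo (-δ) δ) ∧
      ∀ θ ∈ Ioo (-δ) δ, F (θ, σ θ) = 0 := sorry

end Kusner.Def3
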